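import Pool.Agent.U730.MO.Low

set_option autoImplicit false

namespace Pool.Agent.U730.MO

open Finset Filter Topology

/-- The factors at the small primes. -/
theorem small_factor (f : ℕ → ℂ) (B : ℝ) (hB : 0 ≤ B) (hf : ∀ n : ℕ, 1 ≤ n → ‖f n‖ ≤ B / n)
    (p : ℕ) (hp : p.Prime) :
    Tendsto (fun s : ℝ => ∑' k : ℕ, f (p ^ k) * ((((p ^ k : ℕ) : ℝ) ^ (-s) : ℝ) : ℂ))
      (𝓝[>] 0) (𝓝 (∑' k : ℕ, f (p ^ k))) := by
  have hp1 : (1 : ℝ) < p := by exact_mod_cast hp.one_lt
  have hp0 : (0 : ℝ) < p := by linarith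
  have hsum : Summable (fun k : ℕ => B * ((1 / (p : ℝ)) ^ k)) := by
    apply Summable.mul_left
    apply summable_geometric_of_lt_one (by positivity)
    rw [div_lt_one hp0]
    exact hp1
  apply tendsto_tsum_of_dominated_convergence hsum
  · intro k
    have h1 : Tendsto (fun s : ℝ => ((p ^ k : ℕ) : ℝ) ^ (-s)) (𝓝[>] 0) (𝓝 1) := by
      have h2 : Tendsto (fun s : ℝ => ((p ^ k : ℕ) : ℝ) ^ (-s)) (𝓝 0) (𝓝 (((p ^ k : ℕ) : ℝ) ^ (-(0 : ℝ)))) := by
        have hpos : (0 : ℝ) < ((p ^ k : ℕ) : ℝ) := by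
          push_cast
          positivity
        have hc : Continuous (fun s : ℝ => ((p ^ k : ℕ) : ℝ) ^ (-s)) :=
          Continuous.rpow continuous_const continuous_neg (fun _ => Or.inl hpos.ne')
        exact hc.tendsto 0
      rw [neg_zero, Real.rpow_zero] at h2
      exact h2.mono_left nhdsWithin_le_nhds
    have h3 : Tendsto (fun s : ℝ => f (p ^ k) * ((((p ^ k : ℕ) : ℝ) ^ (-s) : ℝ) : ℂ)) (𝓝[>] 0)
        (𝓝 (f (p ^ k) * ((1 : ℝ) : ℂ))) :=
      ((Complex.continuous_ofReal.tendsto 1).comp h1).const_mul _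
    simpa using h3
  · filter_upwards [self_mem_nhdsWithin] with s hs k
    have hs' : (0 : ℝ) < s := hs
    rw [norm_mul, Complex.norm_real, Real.norm_eq_abs, abs_of_nonneg (Real.rpow_nonneg (by positivity) _)]
    have h4 : ((p ^ k : ℕ) : ℝ) ^ (-s) ≤ 1 := by
      apply Real.rpow_le_one_of_one_le_of_nonpos _ (by linarith)
      exact_mod_cast Nat.one_le_pow _ _ hp.pos
    have h5 := hf (p ^ k) (Nat.one_le_pow _ _ hp.pos)
    calc ‖f (p ^ k)‖ * ((p ^ k : ℕ) : ℝ) ^ (-s) ≤ ‖f (p ^ k)‖ * 1 :=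
          mul_le_mul_of_nonneg_left h4 (norm_nonneg _)
      _ ≤ B / ((p ^ k : ℕ) : ℝ) := by rw [mul_one]; exact h5
      _ = B * (1 / (p : ℝ)) ^ k := by
        push_cast
        rw [one_div, inv_pow]
        ring

/-- Every function with zero sum, multiplicative, with nonzero local sums, has
`limsup N |S(N)| ≥ 1/2`. -/
theorem general (f : ℕ → ℂ) (h1 : f 1 = 1) (hm : ∀ m n, Nat.Coprime m n → f (m * n) = f m * f n)
    (hloc : ∀ p, p.Prime → ∃ L : ℂ, L ≠ 0 ∧
      Tendsto (fun K => ∑ k ∈ range K, f (p ^ k)) atTop (𝓝 L))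
    (c : ℝ) (hc0 : 0 ≤ c) (hc : c < 1 / 2) (X : ℕ)
    (hS : ∀ N, X ≤ N → (N : ℝ) * ‖SC f N‖ ≤ c) : False := by
  obtain ⟨c', hc'0, hc'1, n₁, hn₁, hterm⟩ := term_bound f c hc hc0 X hS
  -- global bounds
  obtain ⟨B, hB0, hfB, hSB⟩ : ∃ B : ℝ, 0 < B ∧ (∀ n : ℕ, 1 ≤ n → ‖f n‖ ≤ B / n) ∧
      (∀ N : ℕ, 1 ≤ N → ‖SC f N‖ ≤ B / N) := by
    refine ⟨1 + ∑ n ∈ range (n₁ + X), (n : ℝ) * (‖f n‖ + ‖SC f n‖) + 1, ?_, ?_, ?_⟩
    · have : 0 ≤ ∑ n ∈ range (n₁ + X), (n : ℝ) * (‖f n‖ + ‖SC f n‖) :=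
        Finset.sum_nonneg fun _ _ => by positivity
      linarith
    · intro n hn
      have hn0 : (0 : ℝ) < n := by exact_mod_cast hn
      have hs0 : 0 ≤ ∑ n ∈ range (n₁ + X), (n : ℝ) * (‖f n‖ + ‖SC f n‖) :=
        Finset.sum_nonneg fun _ _ => by positivity
      by_cases hnn : n₁ ≤ n
      · refine (hterm n hnn).trans ?_
        apply div_le_div_of_nonneg_right _ hn0.le
        linarith
      · rw [le_div_iff₀ hn0]
        have h2 : (n : ℝ) * (‖f n‖ + ‖SC f n‖) ≤
            ∑ n ∈ range (n₁ + X), (n : ℝ) * (‖f n‖ + ‖SC f n‖) :=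
          Finset.single_le_sum (f := fun n : ℕ => (n : ℝ) * (‖f n‖ + ‖SC f n‖))
            (fun _ _ => by positivity) (Finset.mem_range.mpr (by omega))
        have h3 : 0 ≤ (n : ℝ) * ‖SC f n‖ := by positivity
        nlinarith
    · intro n hn
      have hn0 : (0 : ℝ) < n := by exact_mod_cast hn
      have hs0 : 0 ≤ ∑ n ∈ range (n₁ + X), (n : ℝ) * (‖f n‖ + ‖SC f n‖) :=
        Finset.sum_nonneg fun _ _ => by positivity
      rw [le_div_iff₀ hn0]
      by_cases hnn : X ≤ n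
      · have := hS n hnn
        linarith
      · have h2 : (n : ℝ) * (‖f n‖ + ‖SC f n‖) ≤
            ∑ n ∈ range (n₁ + X), (n : ℝ) * (‖f n‖ + ‖SC f n‖) :=
          Finset.single_le_sum (f := fun n : ℕ => (n : ℝ) * (‖f n‖ + ‖SC f n‖))
            (fun _ _ => by positivity) (Finset.mem_range.mpr (by omega))
        have h3 : 0 ≤ (n : ℝ) * ‖f n‖ := by positivity
        nlinarith
  -- the functions `f n n^(-s)`
  let g : ℝ → ℕ → ℂ := fun s n => f n * (((n : ℝ) ^ (-s) : ℝ) : ℂ)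
  have hg0 : ∀ s : ℝ, 0 < s → g s 0 = 0 := by
    intro s hs
    simp only [g]
    rw [Nat.cast_zero, Real.zero_rpow (by linarith)]
    simp
  have hg1 : ∀ s : ℝ, g s 1 = 1 := by
    intro s
    simp [g, h1]
  have hgm : ∀ s : ℝ, ∀ {m n : ℕ}, Nat.Coprime m n → g s (m * n) = g s m * g s n := by
    intro s m n hmn
    simp only [g]
    rw [hm m n hmn]
    push_cast
    rw [Real.mul_rpow (by positivity) (by positivity)]
    push_cast
    ring
  have hgs : ∀ s : ℝ, 0 < s → Summable (fun n => ‖g s n‖) := by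
    intro s hs
    refine Summable.of_nonneg_of_le (fun n => norm_nonneg _) (fun n => ?_)
      ((summable_pw s hs).mul_left B)
    rcases Nat.eq_zero_or_pos n with rfl | hn
    · rw [hg0 s hs, norm_zero]
      have : (0 : ℝ) ≤ ((0 : ℕ) : ℝ) ^ (-(1 + s)) := Real.rpow_nonneg (by simp) _
      positivity
    · have hn0 : (0 : ℝ) < n := by exact_mod_cast hn
      simp only [g]
      rw [norm_mul, Complex.norm_real, Real.norm_eq_abs, abs_of_nonneg (Real.rpow_nonneg hn0.le _)]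
      have e : (n : ℝ) ^ (-(1 + s)) = 1 / n * (n : ℝ) ^ (-s) := by
        rw [neg_add, Real.rpow_add hn0, Real.rpow_neg_one, one_div]
      rw [e]
      calc ‖f n‖ * (n : ℝ) ^ (-s) ≤ B / n * (n : ℝ) ^ (-s) :=
            mul_le_mul_of_nonneg_right (hfB n hn) (Real.rpow_nonneg hn0.le _)
        _ = _ := by ring
  -- upper bound
  have hupper : ∀ s : ℝ, 0 < s → ‖∑' n, g s n‖ ≤ 2 * B * s := by
    intro s hs
    apply upper f B hB0.le hSB s hs
    have h2 := ((hgs s hs).of_norm).hasSum.tendsto_sum_nat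
    have h3 := (tendsto_add_atTop_iff_nat 1).mpr h2
    refine h3.congr fun N => ?_
    rw [Finset.sum_range_succ', hg0 s hs, add_zero, Finset.range_eq_Ico,
      Finset.sum_Ico_add' (fun i : ℕ => g s i) 0 N 1]
    apply Finset.sum_congr _ fun _ _ => rfl
    ext i
    simp
  -- the exponent
  set c₂ : ℝ := (1 + c') / 2 with hc₂
  have hcc : c' < c₂ := by rw [hc₂]; linarith
  have hc₂1 : c₂ < 1 := by rw [hc₂]; linarith
  have hc₂0 : 0 < c₂ := by linarith
  -- large primes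
  obtain ⟨P, hP, hP2⟩ : ∃ P : ℕ, n₁ ≤ P ∧ ∀ p : ℕ, p.Prime → P ≤ p → c' / (1 - 1 / (p : ℝ)) ≤ c₂ := by
    obtain ⟨K, hK⟩ := exists_nat_gt (c₂ / (c₂ - c'))
    refine ⟨n₁ + K, by omega, fun p hp hpK => ?_⟩
    have hp1 : (1 : ℝ) < p := by exact_mod_cast hp.one_lt
    have hp0 : (0 : ℝ) < p := by linarith
    have h2 : 0 < c₂ - c' := by linarith
    have h3 : (K : ℝ) ≤ p := by
      have : K ≤ p := by omega
      exact_mod_cast this
    have h4 : c₂ < p * (c₂ - c') := by
      rw [div_lt_iff₀ h2] at hK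
      nlinarith
    have h5 : 0 < 1 - 1 / (p : ℝ) := by
      rw [sub_pos, div_lt_one hp0]
      exact hp1
    rw [div_le_iff₀ h5]
    have h6 : c₂ * (1 - 1 / (p : ℝ)) = c₂ - c₂ / p := by ring
    rw [h6]
    have h7 : c₂ / p < c₂ - c' := by
      rw [div_lt_iff₀ hp0]
      linarith
    linarith
  -- small primes
  have hloc' : ∀ p : ℕ, p.Prime → (∑' k : ℕ, f (p ^ k)) ≠ 0 := by
    intro p hp
    obtain ⟨L, hL, hT⟩ := hloc p hp
    have hp1 : (1 : ℝ) < p := by exact_mod_cast hp.one_lt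
    have hp0 : (0 : ℝ) < p := by linarith
    have hs : Summable (fun k : ℕ => f (p ^ k)) := by
      refine Summable.of_norm_bounded (g := fun k : ℕ => B * ((1 / (p : ℝ)) ^ k)) ?_ fun k => ?_
      · apply Summable.mul_left
        apply summable_geometric_of_lt_one (by positivity)
        rw [div_lt_one hp0]
        exact hp1
      · refine (hfB (p ^ k) (Nat.one_le_pow _ _ hp.pos)).trans (le_of_eq ?_)
        push_cast
        rw [one_div, inv_pow]
        ring
    rw [tendsto_nhds_unique hs.hasSum.tendsto_sum_nat hT]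
    exact hL
  have hsmall : Tendsto (fun s : ℝ => ∏ p ∈ P.primesBelow, ‖∑' k : ℕ, g s (p ^ k)‖) (𝓝[>] 0)
      (𝓝 (∏ p ∈ P.primesBelow, ‖∑' k : ℕ, f (p ^ k)‖)) := by
    apply tendsto_finset_prod
    intro p hp
    exact (small_factor f B hB0.le hfB p (Nat.prime_of_mem_primesBelow hp)).norm
  set a : ℝ := ∏ p ∈ P.primesBelow, ‖∑' k : ℕ, f (p ^ k)‖ with ha
  have ha0 : 0 < a := Finset.prod_pos fun p hp =>
    norm_pos_iff.mpr (hloc' p (Nat.prime_of_mem_primesBelow hp))
  have hev : ∀ᶠ s : ℝ in 𝓝[>] 0, a / 2 < ∏ p ∈ P.primesBelow, ‖∑' k : ℕ, g s (p ^ k)‖ :=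
    hsmall.eventually (lt_mem_nhds (by linarith))
  -- lower bound
  have hlower : ∀ᶠ s : ℝ in 𝓝[>] 0, a / 2 * ((1 + 1 / s)⁻¹) ^ c₂ ≤ ‖∑' n, g s n‖ := by
    filter_upwards [hev, self_mem_nhdsWithin] with s hs1 hs
    have hs' : (0 : ℝ) < s := hs
    have hE := (EulerProduct.eulerProduct (hg1 s) (hgm s) (hgs s hs') (hg0 s hs')).norm
    refine ge_of_tendsto hE ?_
    filter_upwards [eventually_ge_atTop P] with N hN
    rw [norm_prod]
    have hsub : P.primesBelow ⊆ N.primesBelow := by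
      intro p hp
      rw [Nat.mem_primesBelow] at hp ⊢
      exact ⟨by omega, hp.2⟩
    rw [← Finset.prod_sdiff hsub, mul_comm (a / 2)]
    apply mul_le_mul _ hs1.le (by linarith) (Finset.prod_nonneg fun _ _ => norm_nonneg _)
    have hq : ∀ p ∈ N.primesBelow, 0 < 1 - (p : ℝ) ^ (-(1 + s)) ∧ 1 - (p : ℝ) ^ (-(1 + s)) ≤ 1 := by
      intro p hp
      have hp' := Nat.prime_of_mem_primesBelow hp
      have hp1 : (1 : ℝ) < p := by exact_mod_cast hp'.one_lt
      constructor
      · rw [sub_pos]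
        exact Real.rpow_lt_one_of_one_lt_of_neg hp1 (by linarith)
      · have : (0 : ℝ) ≤ (p : ℝ) ^ (-(1 + s)) := Real.rpow_nonneg (by positivity) _
        linarith
    calc ((1 + 1 / s)⁻¹) ^ c₂ ≤ (∏ p ∈ N.primesBelow, (1 - (p : ℝ) ^ (-(1 + s)))) ^ c₂ := by
          apply Real.rpow_le_rpow (by positivity) _ hc₂0.le
          rw [inv_le_comm₀ (by positivity) (Finset.prod_pos fun p hp => (hq p hp).1),
            ← Finset.prod_inv_distrib]
          exact prod_bound s hs' N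
      _ ≤ (∏ p ∈ N.primesBelow \ P.primesBelow, (1 - (p : ℝ) ^ (-(1 + s)))) ^ c₂ := by
          apply Real.rpow_le_rpow (Finset.prod_nonneg fun p hp => (hq p hp).1.le) _ hc₂0.le
          rw [← Finset.prod_sdiff hsub]
          apply mul_le_of_le_one_right
          · apply Finset.prod_nonneg
            intro p hp
            exact (hq p (Finset.mem_sdiff.mp hp).1).1.le
          · apply Finset.prod_le_one
            · intro p hp
              exact (hq p (hsub hp)).1.le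
            · intro p hp
              exact (hq p (hsub hp)).2
      _ = ∏ p ∈ N.primesBelow \ P.primesBelow, (1 - (p : ℝ) ^ (-(1 + s))) ^ c₂ := by
          rw [Real.finset_prod_rpow]
          intro p hp
          exact (hq p (Finset.mem_sdiff.mp hp).1).1.le
      _ ≤ ∏ p ∈ N.primesBelow \ P.primesBelow, ‖∑' k : ℕ, g s (p ^ k)‖ := by
          apply Finset.prod_le_prod
          · intro p hp
            exact Real.rpow_nonneg (hq p (Finset.mem_sdiff.mp hp).1).1.le _
          · intro p hp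
            rw [Finset.mem_sdiff, Nat.mem_primesBelow, Nat.mem_primesBelow] at hp
            have hpp := hp.1.2
            have hPp : P ≤ p := by
              by_contra hlt
              exact hp.2 ⟨by omega, hpp⟩
            refine factor_bound f h1 c' c₂ hc'0 hcc hc₂1 p hpp ?_ (hP2 p hpp hPp) s hs'
            intro k hk
            have h8 : n₁ ≤ p ^ k := by
              calc n₁ ≤ p := by omega
                _ = p ^ 1 := (pow_one p).symm
                _ ≤ p ^ k := Nat.pow_le_pow_right hpp.pos hk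
            have := hterm (p ^ k) h8
            push_cast at this
            exact this
  -- contradiction
  have hfin : ∀ᶠ s : ℝ in 𝓝[>] 0, a / 2 ≤ 2 * B * (s * (1 + 1 / s) ^ c₂) := by
    filter_upwards [hlower, self_mem_nhdsWithin] with s hs1 hs
    have hs' : (0 : ℝ) < s := hs
    have h2 := hs1.trans (hupper s hs')
    have h3 : 0 < (1 + 1 / s) ^ c₂ := Real.rpow_pos_of_pos (by positivity) _
    rw [Real.inv_rpow (by positivity), ← div_eq_mul_inv, div_le_iff₀ h3] at h2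
    linarith
  have hlim : Tendsto (fun s : ℝ => 2 * B * (s * (1 + 1 / s) ^ c₂)) (𝓝[>] 0) (𝓝 0) := by
    have h2 : Tendsto (fun s : ℝ => s ^ (1 - c₂) * (s + 1) ^ c₂) (𝓝[>] 0) (𝓝 0) := by
      have h3 : Tendsto (fun s : ℝ => s ^ (1 - c₂)) (𝓝 0) (𝓝 ((0 : ℝ) ^ (1 - c₂))) :=
        (Real.continuous_rpow_const (by linarith)).tendsto 0
      have h4 : Tendsto (fun s : ℝ => (s + 1) ^ c₂) (𝓝 0) (𝓝 ((0 + 1 : ℝ) ^ c₂)) :=
        ((Real.continuous_rpow_const hc₂0.le).comp (continuous_add_const 1)).tendsto 0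
      have h5 := h3.mul h4
      rw [Real.zero_rpow (by linarith), zero_mul] at h5
      exact h5.mono_left nhdsWithin_le_nhds
    have h6 : Tendsto (fun s : ℝ => 2 * B * (s ^ (1 - c₂) * (s + 1) ^ c₂)) (𝓝[>] 0) (𝓝 0) := by
      have := h2.const_mul (2 * B)
      rwa [mul_zero] at this
    refine h6.congr' ?_
    filter_upwards [self_mem_nhdsWithin] with s hs
    have hs' : (0 : ℝ) < s := hs
    congr 1
    have e : 1 + 1 / s = (s + 1) / s := by field_simp
    rw [e, Real.div_rpow (by positivity) hs'.le, Real.rpow_sub hs', Real.rpow_one]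
    have : s ^ c₂ ≠ 0 := (Real.rpow_pos_of_pos hs' _).ne'
    field_simp
  have h9 := ge_of_tendsto hlim hfin
  linarith

end Pool.Agent.U730.MO
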