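import Mathlib

set_option autoImplicit false

namespace Pool.Agent.U730.MO

open Finset Filter Topology

/-- Partial sums. -/
noncomputable def SC (f : ℕ → ℂ) (N : ℕ) : ℂ := ∑ n ∈ Icc 1 N, f n

theorem SC_succ (f : ℕ → ℂ) (N : ℕ) : SC f (N + 1) = SC f N + f (N + 1) := by
  unfold SC
  rw [Finset.sum_Icc_succ_top (by omega)]

/-- Bound for the terms. -/
theorem term_bound (f : ℕ → ℂ) (c : ℝ) (hc : c < 1 / 2) (hc0 : 0 ≤ c) (X : ℕ)
    (hS : ∀ N, X ≤ N → (N : ℝ) * ‖SC f N‖ ≤ c) :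
    ∃ c' : ℝ, 0 ≤ c' ∧ c' < 1 ∧ ∃ n₁ : ℕ, 1 ≤ n₁ ∧ ∀ n, n₁ ≤ n → ‖f n‖ ≤ c' / n := by
  -- `‖f n‖ ≤ c / n + c / (n - 1)`
  refine ⟨(1 + 2 * c) / 2, by linarith, by linarith, ?_⟩
  obtain ⟨K, hK⟩ := exists_nat_gt (2 * c / (1 - 2 * c))
  refine ⟨X + K + 2, by omega, fun n hn => ?_⟩
  obtain ⟨m, rfl⟩ : ∃ m, n = m + 1 := ⟨n - 1, by omega⟩
  have h1 := hS m (by omega)
  have h2 := hS (m + 1) (by omega)
  have h3 : f (m + 1) = SC f (m + 1) - SC f m := by rw [SC_succ]; ring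
  have hm0 : (0 : ℝ) < m := by
    have : 0 < m := by omega
    exact_mod_cast this
  have hm1 : (0 : ℝ) < ((m + 1 : ℕ) : ℝ) := by positivity
  have h4 : ‖SC f (m + 1)‖ ≤ c / ((m + 1 : ℕ) : ℝ) := by
    rw [le_div_iff₀ hm1]
    linarith
  have h5 : ‖SC f m‖ ≤ c / m := by
    rw [le_div_iff₀ hm0]
    linarith
  rw [h3]
  refine (norm_sub_le _ _).trans ?_
  have h6 : (K : ℝ) ≤ m := by
    have : K ≤ m := by omega
    exact_mod_cast this
  have h7 : 0 < 1 - 2 * c := by linarith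
  have h8 : 2 * c < m * (1 - 2 * c) := by
    rw [div_lt_iff₀ h7] at hK
    nlinarith
  calc ‖SC f (m + 1)‖ + ‖SC f m‖ ≤ c / ((m + 1 : ℕ) : ℝ) + c / m := add_le_add h4 h5
    _ ≤ (1 + 2 * c) / 2 / ((m + 1 : ℕ) : ℝ) := by
      rw [div_add_div _ _ hm1.ne' hm0.ne', div_le_div_iff₀ (by positivity) hm1]
      push_cast
      have h9 : c * m + (m + 1) * c ≤ (1 + 2 * c) / 2 * m := by nlinarith
      nlinarith

/-- Abel summation: `|F(s)| ≤ 2 B s`. -/
theorem upper (f : ℕ → ℂ) (B : ℝ) (hB : 0 ≤ B) (hS : ∀ N : ℕ, 1 ≤ N → ‖SC f N‖ ≤ B / N)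
    (s : ℝ) (hs : 0 < s) (F : ℂ)
    (hF : Tendsto (fun N => ∑ n ∈ Icc 1 N, f n * ((n : ℝ) ^ (-s) : ℝ)) atTop (𝓝 F)) :
    ‖F‖ ≤ 2 * B * s := by
  -- finite Abel summation
  have h1 : ∀ N : ℕ, ∑ n ∈ Icc 1 N, f n * ((n : ℝ) ^ (-s) : ℝ) =
      SC f N * (((N + 1 : ℕ) : ℝ) ^ (-s) : ℝ) +
      ∑ n ∈ Icc 1 N, SC f n * (((n : ℝ) ^ (-s) - ((n + 1 : ℕ) : ℝ) ^ (-s) : ℝ) : ℂ) := by
    intro N
    induction N with
    | zero => simp [SC]
    | succ N ih =>
      rw [Finset.sum_Icc_succ_top (by omega), Finset.sum_Icc_succ_top (by omega), ih, SC_succ]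
      push_cast
      ring
  have h2 : ∀ n : ℕ, 1 ≤ n → 0 ≤ (n : ℝ) ^ (-s) - ((n + 1 : ℕ) : ℝ) ^ (-s) ∧
      (n : ℝ) ^ (-s) - ((n + 1 : ℕ) : ℝ) ^ (-s) ≤ s / n := by
    intro n hn
    have hn0 : (0 : ℝ) < n := by
      have : 0 < n := hn
      exact_mod_cast this
    constructor
    · rw [sub_nonneg]
      apply Real.rpow_le_rpow_of_nonpos hn0 _ (by linarith)
      push_cast
      linarith
    · have h3 : ((n + 1 : ℕ) : ℝ) ^ (-s) = (n : ℝ) ^ (-s) * (1 + 1 / (n : ℝ)) ^ (-s) := by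
        rw [← Real.mul_rpow hn0.le (by positivity)]
        congr 1
        push_cast
        field_simp
      have h4 : 1 - s / n ≤ (1 + 1 / (n : ℝ)) ^ (-s) := by
        have h5 : (0 : ℝ) < 1 + 1 / (n : ℝ) := by positivity
        rw [Real.rpow_def_of_pos h5]
        have h6 : Real.log (1 + 1 / (n : ℝ)) ≤ 1 / n := by
          have := Real.log_le_sub_one_of_pos h5
          linarith
        have h7 : -(s / n) ≤ Real.log (1 + 1 / (n : ℝ)) * (-s) := by
          have : s * Real.log (1 + 1 / (n : ℝ)) ≤ s * (1 / n) := mul_le_mul_of_nonneg_left h6 hs.le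
          have e : s * (1 / (n : ℝ)) = s / n := by ring
          nlinarith
        have h8 := Real.add_one_le_exp (Real.log (1 + 1 / (n : ℝ)) * (-s))
        linarith
      have h9 : (n : ℝ) ^ (-s) ≤ 1 := by
        apply Real.rpow_le_one_of_one_le_of_nonpos _ (by linarith)
        exact_mod_cast hn
      have h10 : 0 ≤ (n : ℝ) ^ (-s) := Real.rpow_nonneg hn0.le _
      rw [h3]
      have h11 : 0 ≤ s / n := by positivity
      nlinarith
  -- bounds
  have h3 : ∀ N : ℕ, ‖∑ n ∈ Icc 1 N, f n * ((n : ℝ) ^ (-s) : ℝ)‖ ≤ B / ((N : ℕ) : ℝ) + 2 * B * s := by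
    intro N
    rcases Nat.eq_zero_or_pos N with rfl | hN
    · simp
      positivity
    rw [h1]
    refine (norm_add_le _ _).trans (add_le_add ?_ ?_)
    · rw [norm_mul, Complex.norm_real, Real.norm_eq_abs,
        abs_of_nonneg (Real.rpow_nonneg (by positivity) _)]
      have h4 : (((N + 1 : ℕ) : ℝ)) ^ (-s) ≤ 1 := by
        apply Real.rpow_le_one_of_one_le_of_nonpos _ (by linarith)
        push_cast
        linarith [(Nat.cast_nonneg N : (0 : ℝ) ≤ N)]
      calc ‖SC f N‖ * ((N + 1 : ℕ) : ℝ) ^ (-s) ≤ ‖SC f N‖ * 1 :=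
            mul_le_mul_of_nonneg_left h4 (norm_nonneg _)
        _ ≤ B / N := by rw [mul_one]; exact hS N hN
    · refine (norm_sum_le _ _).trans ?_
      calc ∑ n ∈ Icc 1 N, ‖SC f n * (((n : ℝ) ^ (-s) - ((n + 1 : ℕ) : ℝ) ^ (-s) : ℝ) : ℂ)‖
          ≤ ∑ n ∈ Icc 1 N, B * s * (1 / (n : ℝ) ^ 2) := by
            apply Finset.sum_le_sum
            intro n hn
            rw [Finset.mem_Icc] at hn
            have hn0 : (0 : ℝ) < n := by
              have : 0 < n := hn.1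
              exact_mod_cast this
            rw [norm_mul, Complex.norm_real, Real.norm_eq_abs, abs_of_nonneg (h2 n hn.1).1]
            calc ‖SC f n‖ * ((n : ℝ) ^ (-s) - ((n + 1 : ℕ) : ℝ) ^ (-s)) ≤ B / n * (s / n) :=
                  mul_le_mul (hS n hn.1) (h2 n hn.1).2 (h2 n hn.1).1 (by positivity)
              _ = B * s * (1 / (n : ℝ) ^ 2) := by
                  field_simp
        _ = B * s * ∑ n ∈ Icc 1 N, 1 / (n : ℝ) ^ 2 := by rw [Finset.mul_sum]
        _ ≤ B * s * 2 := by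
            apply mul_le_mul_of_nonneg_left _ (by positivity)
            have h5 : ∀ M : ℕ, ∑ n ∈ Icc 1 (M + 1), 1 / (n : ℝ) ^ 2 ≤ 2 - 1 / ((M : ℝ) + 1) := by
              intro M
              induction M with
              | zero => norm_num
              | succ M ih =>
                rw [Finset.sum_Icc_succ_top (by omega)]
                have h6 : (1 : ℝ) / ((M + 1 + 1 : ℕ) : ℝ) ^ 2 ≤
                    1 / ((M : ℝ) + 1) - 1 / (((M + 1 : ℕ) : ℝ) + 1) := by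
                  push_cast
                  rw [div_sub_div _ _ (by positivity) (by positivity),
                    div_le_div_iff₀ (by positivity) (by positivity)]
                  nlinarith [(Nat.cast_nonneg M : (0 : ℝ) ≤ M)]
                have h6' : (1 : ℝ) / ((M + 1 + 1 : ℕ) : ℝ) ^ 2 ≤
                    1 / ((M : ℝ) + 1) - 1 / (((M + 1 : ℕ) : ℝ) + 1) := h6
                linarith
            obtain ⟨M, rfl⟩ : ∃ M, N = M + 1 := ⟨N - 1, by omega⟩
            have := h5 M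
            have h7 : (0 : ℝ) ≤ 1 / ((M : ℝ) + 1) := by positivity
            linarith
        _ = 2 * B * s := by ring
  have h4 : Tendsto (fun N : ℕ => B / ((N : ℕ) : ℝ) + 2 * B * s) atTop (𝓝 (0 + 2 * B * s)) :=
    (tendsto_const_div_atTop_nhds_zero_nat B).add_const _
  have h5 := le_of_tendsto_of_tendsto hF.norm h4 (Eventually.of_forall h3)
  linarith

end Pool.Agent.U730.MO
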