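import Pool.Agent.U730.MO.Gen

set_option autoImplicit false

namespace Pool.Agent.U730.MO

open Finset Filter Topology

/-- `∑ n^(-1-s) ≤ 1 + 1/s`. -/
theorem zeta_bound (s : ℝ) (hs : 0 < s) (N : ℕ) :
    ∑ n ∈ Icc 1 N, (n : ℝ) ^ (-(1 + s)) ≤ 1 + 1 / s := by
  have h1 : ∀ M : ℕ, ∑ n ∈ Icc 1 (M + 1), (n : ℝ) ^ (-(1 + s)) ≤
      1 + (1 - ((M : ℝ) + 1) ^ (-s)) / s := by
    intro M
    induction M with
    | zero => simp
    | succ M ih =>
      rw [Finset.sum_Icc_succ_top (by omega)]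
      have h2 : ((M + 1 + 1 : ℕ) : ℝ) ^ (-(1 + s)) ≤
          (((M : ℝ) + 1) ^ (-s) - (((M + 1 : ℕ) : ℝ) + 1) ^ (-s)) / s := by
        push_cast
        set a : ℝ := (M : ℝ) + 1
        have ha : 0 < a := by positivity
        have hn : (0 : ℝ) < a + 1 := by positivity
        rw [le_div_iff₀ hs]
        have h3 : a ^ (-s) = (a + 1) ^ (-s) * (1 - 1 / (a + 1)) ^ (-s) := by
          have h31 : (0 : ℝ) ≤ 1 - 1 / (a + 1) := by
            rw [sub_nonneg, div_le_one hn]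
            linarith
          rw [← Real.mul_rpow hn.le h31]
          congr 1
          field_simp
          ring
        have h4 : 1 + s / (a + 1) ≤ (1 - 1 / (a + 1)) ^ (-s) := by
          have h5 : (0 : ℝ) < 1 - 1 / (a + 1) := by
            rw [sub_pos, div_lt_one hn]
            linarith
          rw [Real.rpow_def_of_pos h5]
          have h6 : Real.log (1 - 1 / (a + 1)) ≤ -(1 / (a + 1)) := by
            have := Real.log_le_sub_one_of_pos h5
            linarith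
          have h7 : s / (a + 1) ≤ Real.log (1 - 1 / (a + 1)) * (-s) := by
            have : s * Real.log (1 - 1 / (a + 1)) ≤ s * -(1 / (a + 1)) :=
              mul_le_mul_of_nonneg_left h6 hs.le
            have e : s * (1 / (a + 1)) = s / (a + 1) := by ring
            nlinarith
          have h8 := Real.add_one_le_exp (Real.log (1 - 1 / (a + 1)) * (-s))
          linarith
        have h9 : (a + 1) ^ (-(1 + s)) = (a + 1) ^ (-s) / (a + 1) := by
          rw [neg_add, Real.rpow_add hn, Real.rpow_neg_one]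
          field_simp
        rw [h9, h3]
        have h10 : 0 ≤ (a + 1) ^ (-s) := Real.rpow_nonneg hn.le _
        have h11 : (a + 1) ^ (-s) / (a + 1) * s = (a + 1) ^ (-s) * (s / (a + 1)) := by ring
        rw [h11]
        nlinarith
      have e : (1 - ((M : ℝ) + 1) ^ (-s)) / s +
          (((M : ℝ) + 1) ^ (-s) - (((M + 1 : ℕ) : ℝ) + 1) ^ (-s)) / s =
          (1 - (((M + 1 : ℕ) : ℝ) + 1) ^ (-s)) / s := by ring
      linarith
  rcases Nat.eq_zero_or_pos N with rfl | hN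
  · simp
    positivity
  · obtain ⟨M, rfl⟩ : ∃ M, N = M + 1 := ⟨N - 1, by omega⟩
    refine (h1 M).trans ?_
    have h2 : (0 : ℝ) ≤ ((M : ℝ) + 1) ^ (-s) := Real.rpow_nonneg (by positivity) _
    have h3 : (1 - ((M : ℝ) + 1) ^ (-s)) / s ≤ 1 / s := by
      apply div_le_div_of_nonneg_right _ hs.le
      linarith
    linarith

/-- The completely multiplicative function `n^(-1-s)`. -/
noncomputable def pw (s : ℝ) (hs : 0 < s) : ℕ →*₀ ℝ where
  toFun n := (n : ℝ) ^ (-(1 + s))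
  map_zero' := by
    rw [Nat.cast_zero, Real.zero_rpow (by linarith)]
  map_one' := by simp
  map_mul' m n := by
    push_cast
    rw [Real.mul_rpow (by positivity) (by positivity)]

theorem summable_pw (s : ℝ) (hs : 0 < s) : Summable (fun n : ℕ => (n : ℝ) ^ (-(1 + s))) :=
  Real.summable_nat_rpow.mpr (by linarith)

theorem prod_bound (s : ℝ) (hs : 0 < s) (N : ℕ) :
    ∏ p ∈ N.primesBelow, (1 - (p : ℝ) ^ (-(1 + s)))⁻¹ ≤ 1 + 1 / s := by
  have h1 := EulerProduct.prod_primesBelow_geometric_eq_tsum_smoothNumbers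
    (f := ((pw s hs : ℕ →*₀ ℝ) : ℕ →* ℝ)) (summable_pw s hs) N
  have h2 : ∏ p ∈ N.primesBelow, (1 - (p : ℝ) ^ (-(1 + s)))⁻¹ =
      ∑' m : N.smoothNumbers, ((m : ℕ) : ℝ) ^ (-(1 + s)) := h1
  rw [h2]
  have h3 : ∑' m : N.smoothNumbers, ((m : ℕ) : ℝ) ^ (-(1 + s)) ≤
      ∑' n : ℕ, (n : ℝ) ^ (-(1 + s)) :=
    (summable_pw s hs).tsum_subtype_le (fun n : ℕ => (n : ℝ) ^ (-(1 + s))) N.smoothNumbers
      (fun n => Real.rpow_nonneg (by positivity) _)
  refine h3.trans ?_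
  apply Real.tsum_le_of_sum_range_le (fun n => Real.rpow_nonneg (by positivity) _)
  intro n
  refine le_trans ?_ (zeta_bound s hs n)
  have h4 : ∑ i ∈ range n, (i : ℝ) ^ (-(1 + s)) ≤ ∑ i ∈ range (n + 1), (i : ℝ) ^ (-(1 + s)) := by
    rw [Finset.sum_range_succ]
    have : (0 : ℝ) ≤ (n : ℝ) ^ (-(1 + s)) := Real.rpow_nonneg (by positivity) _
    linarith
  refine h4.trans (le_of_eq ?_)
  rw [Finset.sum_range_succ', Nat.cast_zero, Real.zero_rpow (by linarith), add_zero,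
    Finset.range_eq_Ico, Finset.sum_Ico_add' (fun i : ℕ => (i : ℝ) ^ (-(1 + s))) 0 n 1]
  apply Finset.sum_congr _ fun _ _ => rfl
  ext i
  simp

/-- The factor at a large prime. -/
theorem factor_bound (f : ℕ → ℂ) (h1 : f 1 = 1) (c c' : ℝ) (hc : 0 ≤ c) (hcc : c < c') (hc' : c' < 1)
    (p : ℕ) (hp : p.Prime) (hf : ∀ k, 1 ≤ k → ‖f (p ^ k)‖ ≤ c / (p : ℝ) ^ k)
    (hpl : c / (1 - 1 / (p : ℝ)) ≤ c') (s : ℝ) (hs : 0 < s) :
    (1 - (p : ℝ) ^ (-(1 + s))) ^ c' ≤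
      ‖∑' k : ℕ, f (p ^ k) * ((((p ^ k : ℕ) : ℝ) ^ (-s) : ℝ) : ℂ)‖ := by
  set q : ℝ := (p : ℝ) ^ (-(1 + s)) with hq
  have hp1 : (1 : ℝ) < p := by exact_mod_cast hp.one_lt
  have hp0 : (0 : ℝ) < p := by linarith
  have hq0 : 0 < q := Real.rpow_pos_of_pos hp0 _
  have hq1 : q ≤ 1 / p := by
    rw [hq, ← Real.rpow_neg_one p |>.trans (one_div _).symm |>.symm |> fun h => h.symm]
    apply Real.rpow_le_rpow_of_exponent_le hp1.le
    linarith
  have hp2 : 1 / (p : ℝ) < 1 := by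
    rw [div_lt_one hp0]
    exact hp1
  have hterm : ∀ k : ℕ, 1 ≤ k → ‖f (p ^ k) * ((((p ^ k : ℕ) : ℝ) ^ (-s) : ℝ) : ℂ)‖ ≤ c * q ^ k := by
    intro k hk
    rw [norm_mul, Complex.norm_real, Real.norm_eq_abs, abs_of_nonneg (Real.rpow_nonneg (by positivity) _)]
    have e : q ^ k = 1 / (p : ℝ) ^ k * (((p ^ k : ℕ) : ℝ) ^ (-s)) := by
      rw [hq, neg_add, Real.rpow_add hp0, mul_pow, Real.rpow_neg_one]
      push_cast
      rw [inv_pow, one_div, ← Real.rpow_natCast ((p : ℝ) ^ (-s)), ← Real.rpow_mul hp0.le,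
        ← Real.rpow_natCast (p : ℝ) k, ← Real.rpow_mul hp0.le, mul_comm (-s)]
    rw [e]
    have := mul_le_mul_of_nonneg_right (hf k hk)
      (Real.rpow_nonneg (by positivity) _ : (0 : ℝ) ≤ ((p ^ k : ℕ) : ℝ) ^ (-s))
    calc _ ≤ _ := this
      _ = _ := by ring
  have hq1' : q < 1 := by linarith
  have hgeo : Summable (fun k : ℕ => c * q ^ k) :=
    (summable_geometric_of_lt_one hq0.le hq1').mul_left c
  have hgeo1 : Summable (fun k : ℕ => c * q ^ (k + 1)) := (summable_nat_add_iff 1).mpr hgeo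
  have hsum1 : Summable (fun k : ℕ =>
      f (p ^ (k + 1)) * ((((p ^ (k + 1) : ℕ) : ℝ) ^ (-s) : ℝ) : ℂ)) :=
    Summable.of_norm_bounded hgeo1 (fun k => hterm (k + 1) (by omega))
  have hsum : Summable (fun k : ℕ => f (p ^ k) * ((((p ^ k : ℕ) : ℝ) ^ (-s) : ℝ) : ℂ)) :=
    (summable_nat_add_iff 1).mp hsum1
  rw [hsum.tsum_eq_zero_add]
  have h0 : f (p ^ 0) * ((((p ^ 0 : ℕ) : ℝ) ^ (-s) : ℝ) : ℂ) = 1 := by
    simp [h1]
  rw [h0]
  have htail : ‖∑' k : ℕ, f (p ^ (k + 1)) * ((((p ^ (k + 1) : ℕ) : ℝ) ^ (-s) : ℝ) : ℂ)‖ ≤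
      c' * q := by
    refine (tsum_of_norm_bounded hgeo1.hasSum (fun k => hterm (k + 1) (by omega))).trans ?_
    have e : ∑' k : ℕ, c * q ^ (k + 1) = c / (1 - q) * q := by
      have : ∀ k : ℕ, c * q ^ (k + 1) = (c * q) * q ^ k := fun k => by ring
      simp_rw [this]
      rw [tsum_mul_left, tsum_geometric_of_lt_one hq0.le hq1']
      field_simp
    rw [e]
    apply mul_le_mul_of_nonneg_right _ hq0.le
    refine le_trans ?_ hpl
    apply div_le_div_of_nonneg_left hc (by linarith) (by linarith)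
  have h3 : 1 - c' * q ≤ ‖1 + ∑' k : ℕ, f (p ^ (k + 1)) *
      ((((p ^ (k + 1) : ℕ) : ℝ) ^ (-s) : ℝ) : ℂ)‖ := by
    have h4 := norm_sub_norm_le (1 : ℂ) (-(∑' k : ℕ, f (p ^ (k + 1)) *
      ((((p ^ (k + 1) : ℕ) : ℝ) ^ (-s) : ℝ) : ℂ)))
    rw [norm_neg, sub_neg_eq_add, norm_one] at h4
    linarith
  refine le_trans ?_ h3
  have h5 := rpow_one_add_le_one_add_mul_self (s := -q) (by linarith) (p := c') (by linarith)
    hc'.le
  have e2 : 1 - q = 1 + -q := by ring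
  rw [e2]
  linarith

end Pool.Agent.U730.MO
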