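import Pool.Agent.U730.MO.Sq

set_option autoImplicit false

namespace Pool.Agent.U730.MO

open Finset

theorem dsum_mul (h : ℕ → ℝ) (h1 : h 1 = 1)
    (hm : ∀ m n, Nat.Coprime m n → h (m * n) = h m * h n)
    (m n : ℕ) (hmn : Nat.Coprime m n) :
    ∑ d ∈ (m * n).divisors, h d = (∑ d ∈ m.divisors, h d) * ∑ d ∈ n.divisors, h d := by
  let H : ArithmeticFunction ℝ := ⟨fun n => if n = 0 then 0 else h n, by simp⟩
  have hH : H.IsMultiplicative := by
    rw [ArithmeticFunction.IsMultiplicative.iff_ne_zero]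
    refine ⟨by simp [H, h1], ?_⟩
    intro a b ha hb hab
    simp [H, ha, hb, hm a b hab]
  have hZ : ((ArithmeticFunction.zeta : ArithmeticFunction ℕ) * H :
      ArithmeticFunction ℝ).IsMultiplicative :=
    ArithmeticFunction.isMultiplicative_zeta.natCast.mul hH
  have key : ∀ N : ℕ, ((ArithmeticFunction.zeta : ArithmeticFunction ℕ) * H :
      ArithmeticFunction ℝ) N = ∑ d ∈ N.divisors, h d := by
    intro N
    rw [ArithmeticFunction.coe_zeta_mul_apply]
    apply Finset.sum_congr rfl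
    intro d hd
    have : d ≠ 0 := (Nat.pos_of_mem_divisors hd).ne'
    simp [H, this]
  rw [← key, ← key, ← key, hZ.map_mul_of_coprime hmn]

theorem dsum_nonneg (h : ℕ → ℝ) (h1 : h 1 = 1)
    (hm : ∀ m n, Nat.Coprime m n → h (m * n) = h m * h n)
    (hpos : ∀ p k, p.Prime → 0 ≤ ∑ j ∈ range (k + 1), h (p ^ j)) :
    ∀ N, 1 ≤ N → 0 ≤ ∑ d ∈ N.divisors, h d := by
  intro N
  induction N using Nat.recOnPosPrimePosCoprime with
  | prime_pow p k hp hk =>
    intro _
    rw [Nat.sum_divisors_prime_pow hp]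
    exact hpos p k hp
  | zero => intro h; omega
  | one => intro _; simp [h1]
  | coprime a b ha hb hab iha ihb =>
    intro _
    rw [dsum_mul h h1 hm a b hab]
    exact mul_nonneg (iha (by omega)) (ihb (by omega))

theorem dsum_sq (h : ℕ → ℝ) (h1 : h 1 = 1)
    (hm : ∀ m n, Nat.Coprime m n → h (m * n) = h m * h n)
    (hsq : ∀ p k, p.Prime → 1 ≤ ∑ j ∈ range (2 * k + 1), h (p ^ j)) :
    ∀ N, 1 ≤ N → 1 ≤ ∑ d ∈ (N ^ 2).divisors, h d := by
  intro N
  induction N using Nat.recOnPosPrimePosCoprime with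
  | prime_pow p k hp hk =>
    intro _
    rw [← pow_mul, Nat.sum_divisors_prime_pow hp, mul_comm k 2]
    exact hsq p k hp
  | zero => intro h; omega
  | one => intro _; simp [h1]
  | coprime a b ha hb hab iha ihb =>
    intro _
    rw [mul_pow, dsum_mul h h1 hm (a ^ 2) (b ^ 2) (Nat.Coprime.pow 2 2 hab)]
    exact one_le_mul_of_one_le_of_one_le (iha (by omega)) (ihb (by omega))

end Pool.Agent.U730.MO
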