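import Mathlib

set_option autoImplicit false

namespace Pool.Agent.U730.MO

open Finset

/-- Partial sums. -/
noncomputable def S (f : ℕ → ℝ) (N : ℕ) : ℝ := ∑ n ∈ Icc 1 N, f n

theorem S_zero (f : ℕ → ℝ) : S f 0 = 0 := by simp [S]

theorem S_succ (f : ℕ → ℝ) (N : ℕ) : S f (N + 1) = S f N + f (N + 1) := by
  unfold S
  rw [Finset.sum_Icc_succ_top (by omega)]

theorem by_parts (f ψ : ℕ → ℝ) (X : ℕ) :
    ∑ n ∈ Icc 1 X, f n * ψ n = S f X * ψ X + ∑ i ∈ range X, S f i * (ψ i - ψ (i + 1)) := by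
  induction X with
  | zero => simp [S_zero]
  | succ X ih =>
    rw [Finset.sum_Icc_succ_top (by omega), ih, Finset.sum_range_succ, S_succ]
    ring

/-- `r (d - r)` for `r = X % d`. -/
def rho (X d : ℕ) : ℤ := ((X % d : ℕ) : ℤ) * ((d : ℤ) - ((X % d : ℕ) : ℤ))

theorem rho_nonneg (X d : ℕ) (hd : 1 ≤ d) : 0 ≤ rho X d := by
  unfold rho
  have h := Nat.mod_lt X (by omega : d > 0)
  have h1 : ((X % d : ℕ) : ℤ) < d := by exact_mod_cast h
  apply mul_nonneg
  · positivity
  · linarith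

theorem rho_le_sq (X d : ℕ) : 4 * rho X d ≤ (d : ℤ) ^ 2 := by
  unfold rho
  nlinarith [sq_nonneg ((d : ℤ) - 2 * ((X % d : ℕ) : ℤ))]

theorem rho_diff (X d : ℕ) (hd : 1 ≤ d) : |rho X d - rho X (d + 1)| ≤ 2 * (X : ℤ) := by
  have h0 := rho_nonneg X d hd
  have h1 := rho_nonneg X (d + 1) (by omega)
  have hX := Nat.div_add_mod X d
  have hr := Nat.mod_lt X (by omega : d > 0)
  by_cases hM : X / d > d + 1
  · have h2 := rho_le_sq X d
    have h3 := rho_le_sq X (d + 1)
    have h4 : (d : ℤ) * (d + 2) ≤ X := by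
      have h5 : d * (d + 2) ≤ d * (X / d) := Nat.mul_le_mul_left d (by omega)
      have h6 : d * (d + 2) ≤ X := by omega
      exact_mod_cast h6
    have h7 : (1 : ℤ) ≤ d := by exact_mod_cast hd
    push_cast at h3
    rw [abs_le]
    constructor
    · nlinarith
    · nlinarith
  · obtain ⟨M, hMd⟩ : ∃ M, X / d = M := ⟨_, rfl⟩
    obtain ⟨r, hrd⟩ : ∃ r, X % d = r := ⟨_, rfl⟩
    rw [hMd, hrd] at hX
    rw [hrd] at hr
    rw [hMd] at hM
    have hMle : M ≤ d + 1 := by omega
    have hX' : (X : ℤ) = d * M + r := by exact_mod_cast hX.symm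
    have hr' : (r : ℤ) < d := by exact_mod_cast hr
    have hMd' : (M : ℤ) ≤ d + 1 := by exact_mod_cast hMle
    have hr0 : (0 : ℤ) ≤ r := by positivity
    have hM0 : (0 : ℤ) ≤ M := by positivity
    have hd1 : (1 : ℤ) ≤ d := by exact_mod_cast hd
    by_cases hc : M ≤ r
    · have hmod : X % (d + 1) = r - M := by
        have e : X = (r - M) + (d + 1) * M := by
          have : (d + 1) * M = d * M + M := by ring
          omega
        rw [e, Nat.add_mul_mod_self_left]
        exact Nat.mod_eq_of_lt (by omega)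
      have hc' : (M : ℤ) ≤ r := by exact_mod_cast hc
      unfold rho
      rw [hmod, hrd]
      push_cast [Nat.cast_sub hc]
      have e1 : (r : ℤ) * (d - r) - (r - M) * (d + 1 - (r - M)) =
        M * (d - 2 * r) + M * M + M - r := by ring
      rw [e1, hX', abs_le]
      constructor
      · nlinarith [mul_nonneg hM0 hr0, mul_nonneg hM0 (by linarith : (0 : ℤ) ≤ d - r)]
      · nlinarith [mul_nonneg hM0 (by linarith : (0 : ℤ) ≤ r - M), mul_nonneg hM0 hr0]
    · have hmod : X % (d + 1) = r + (d + 1) - M := by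
        have e : X = (r + (d + 1) - M) + (d + 1) * (M - 1) := by
          have h9 : (d + 1) * (M - 1) + (d + 1) = (d + 1) * M := by
            have : M = (M - 1) + 1 := by omega
            conv_rhs => rw [this]
            ring
          have : (d + 1) * M = d * M + M := by ring
          omega
        have : X % (d + 1) = ((r + (d + 1) - M) + (d + 1) * (M - 1)) % (d + 1) := by rw [← e]
        rw [this, Nat.add_mul_mod_self_left]
        exact Nat.mod_eq_of_lt (by omega)
      have hc' : (r : ℤ) + 1 ≤ M := by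
        have : r + 1 ≤ M := by omega
        exact_mod_cast this
      have u0 : rho X d ≤ X := by
        unfold rho
        rw [hrd, hX']
        nlinarith [mul_nonneg hr0 hr0, mul_nonneg (by linarith : (0 : ℤ) ≤ M - r) (by linarith : (0 : ℤ) ≤ (d : ℤ))]
      have u1 : rho X (d + 1) ≤ 2 * X := by
        unfold rho
        rw [hmod]
        push_cast [Nat.cast_sub (by omega : M ≤ r + (d + 1))]
        have e2 : ((r : ℤ) + (d + 1) - M) * ((d : ℤ) + 1 - (r + (d + 1) - M)) =
          (d + 1 - (M - r)) * (M - r) := by ring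
        rw [e2, hX']
        nlinarith [mul_nonneg (by linarith : (0 : ℤ) ≤ M - r) (by linarith : (0 : ℤ) ≤ M - r - 1),
          mul_nonneg hM0 (by linarith : (0 : ℤ) ≤ (d : ℤ) - 1), mul_nonneg hr0 (by linarith : (0 : ℤ) ≤ (d : ℤ))]
      rw [abs_le]
      constructor <;> linarith

/-- `2 d ∑_{m ≤ X / d} (X - d m) = X ^ 2 - X d + r (d - r)`. -/
theorem inner_sum (X d : ℕ) (hd : 1 ≤ d) :
    2 * (d : ℝ) * ∑ m ∈ Icc 1 (X / d), ((X : ℝ) - d * m) =
      (X : ℝ) ^ 2 - X * d + (rho X d : ℝ) := by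
  have hs : ∀ M : ℕ, ∑ m ∈ Icc 1 M, ((X : ℝ) - d * m) = M * X - d * (M * (M + 1) / 2) := by
    intro M
    induction M with
    | zero => simp
    | succ M ih =>
      rw [Finset.sum_Icc_succ_top (by omega), ih]
      push_cast
      ring
  rw [hs]
  have hX := Nat.div_add_mod X d
  have hX' : (X : ℝ) = d * ((X / d : ℕ) : ℝ) + ((X % d : ℕ) : ℝ) := by exact_mod_cast hX.symm
  have hrho : (rho X d : ℝ) = ((X % d : ℕ) : ℝ) * ((d : ℝ) - ((X % d : ℕ) : ℝ)) := by
    unfold rho
    rw [Int.cast_mul, Int.cast_sub, Int.cast_natCast, Int.cast_natCast]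
  rw [hrho]
  set M : ℝ := ((X / d : ℕ) : ℝ)
  set r : ℝ := ((X % d : ℕ) : ℝ)
  rw [hX']
  ring

/-- Interchange of summation. -/
theorem swap (h : ℕ → ℝ) (X : ℕ) :
    ∑ N ∈ Icc 1 X, (∑ d ∈ N.divisors, h d) * ((X : ℝ) - N) =
      ∑ d ∈ Icc 1 X, h d * ∑ m ∈ Icc 1 (X / d), ((X : ℝ) - d * m) := by
  have h1 : ∀ N ∈ Icc 1 X, (∑ d ∈ N.divisors, h d) * ((X : ℝ) - N) =
      ∑ d ∈ Icc 1 X, if d ∣ N then h d * ((X : ℝ) - N) else 0 := by
    intro N hN
    rw [Finset.mem_Icc] at hN
    rw [Finset.sum_mul, ← Finset.sum_filter]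
    apply Finset.sum_congr _ fun _ _ => rfl
    ext d
    rw [Nat.mem_divisors, Finset.mem_filter, Finset.mem_Icc]
    constructor
    · rintro ⟨h1, h2⟩
      exact ⟨⟨Nat.pos_of_dvd_of_pos h1 (by omega), (Nat.le_of_dvd (by omega) h1).trans hN.2⟩, h1⟩
    · rintro ⟨h1, h2⟩
      exact ⟨h2, by omega⟩
  rw [Finset.sum_congr rfl h1, Finset.sum_comm]
  apply Finset.sum_congr rfl
  intro d hd
  rw [Finset.mem_Icc] at hd
  rw [← Finset.sum_filter, Finset.mul_sum]
  symm
  apply Finset.sum_bij (fun m _ => d * m)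
  · intro m hm
    rw [Finset.mem_Icc] at hm
    rw [Finset.mem_filter, Finset.mem_Icc]
    refine ⟨⟨Nat.mul_pos (by omega) (by omega), ?_⟩, dvd_mul_right _ _⟩
    exact (Nat.mul_le_mul_left d hm.2).trans (Nat.mul_div_le X d)
  · intro a _ b _ hab
    exact Nat.eq_of_mul_eq_mul_left (by omega) hab
  · intro N hN
    rw [Finset.mem_filter, Finset.mem_Icc] at hN
    obtain ⟨⟨h2, h3⟩, m, rfl⟩ := hN
    refine ⟨m, ?_, rfl⟩
    rw [Finset.mem_Icc]
    refine ⟨Nat.pos_of_mul_pos_left h2 |> fun _ => ?_, ?_⟩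
    · rcases Nat.eq_zero_or_pos m with rfl | h4
      · simp at h2
      · exact h4
    · rw [Nat.le_div_iff_mul_le (by omega)]
      rw [mul_comm]
      exact h3
  · intro m _
    push_cast
    ring

theorem sum_inv_sqrt (n : ℕ) : ∑ i ∈ Icc 1 n, 1 / Real.sqrt i ≤ 2 * Real.sqrt n := by
  induction n with
  | zero => simp
  | succ n ih =>
    rw [Finset.sum_Icc_succ_top (by omega)]
    push_cast at *
    have h1 : (0 : ℝ) < Real.sqrt (n + 1) := Real.sqrt_pos.mpr (by positivity)
    have h2 : (0 : ℝ) ≤ Real.sqrt n := Real.sqrt_nonneg _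
    have h3 : Real.sqrt (n + 1) ^ 2 = n + 1 := Real.sq_sqrt (by positivity)
    have h4 : Real.sqrt n ^ 2 = (n : ℝ) := Real.sq_sqrt (by positivity)
    have h5 : 1 / Real.sqrt ((n : ℝ) + 1) ≤ 2 * Real.sqrt (n + 1) - 2 * Real.sqrt n := by
      rw [div_le_iff₀ h1]
      nlinarith [sq_nonneg (Real.sqrt ((n : ℝ) + 1) - Real.sqrt n)]
    linarith

/-- The main inequality. -/
theorem main_ineq (h : ℕ → ℝ) (hpos : ∀ N, 1 ≤ N → 0 ≤ ∑ d ∈ N.divisors, h d)
    (hsq : ∀ m, 1 ≤ m → 1 ≤ ∑ d ∈ (m ^ 2).divisors, h d) (X₀ : ℕ)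
    (hS : ∀ N, X₀ ≤ N → |S (fun n => h n / n) N| < 1 / (5 * Real.sqrt N)) : False := by
  set f : ℕ → ℝ := fun n => h n / n with hf
  -- bound for sums of `|S|`
  obtain ⟨C, hC0, hC⟩ : ∃ C : ℝ, 0 ≤ C ∧ ∀ X : ℕ, ∑ i ∈ range X, |S f i| ≤
      C + 2 / 5 * Real.sqrt X := by
    refine ⟨∑ i ∈ range (X₀ + 1), |S f i|, Finset.sum_nonneg fun _ _ => abs_nonneg _, fun X => ?_⟩
    have h1 : ∀ i ∈ range X, |S f i| ≤ (if i < X₀ + 1 then |S f i| else 0) +
        (1 / 5) * (if 1 ≤ i then 1 / Real.sqrt i else 0) := by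
      intro i _
      have h3 : 0 ≤ (1 / 5 : ℝ) * (if 1 ≤ i then 1 / Real.sqrt i else 0) := by
        split_ifs <;> positivity
      by_cases hi : i < X₀ + 1
      · rw [if_pos hi]
        linarith
      · rw [if_neg hi, if_pos (by omega : 1 ≤ i), zero_add]
        have := (hS i (by omega)).le
        calc |S f i| ≤ _ := this
          _ = _ := by rw [one_div_mul_one_div]
    refine (Finset.sum_le_sum h1).trans ?_
    rw [Finset.sum_add_distrib, ← Finset.mul_sum]
    have h4 : ∑ i ∈ range X, (if i < X₀ + 1 then |S f i| else 0) ≤ ∑ i ∈ range (X₀ + 1), |S f i| := by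
      rw [← Finset.sum_filter]
      apply Finset.sum_le_sum_of_subset_of_nonneg
      · intro i hi
        rw [Finset.mem_filter] at hi
        rw [Finset.mem_range]
        exact hi.2
      · intro _ _ _
        exact abs_nonneg _
    have h5 : ∑ i ∈ range X, (if 1 ≤ i then 1 / Real.sqrt i else 0) ≤ 2 * Real.sqrt X := by
      refine le_trans ?_ (sum_inv_sqrt X)
      rw [← Finset.sum_filter]
      apply Finset.sum_le_sum_of_subset_of_nonneg
      · intro i hi
        rw [Finset.mem_filter, Finset.mem_range] at hi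
        rw [Finset.mem_Icc]
        omega
      · intro i _ _
        positivity
    linarith
  -- the two evaluations
  have key : ∀ Y : ℕ, 1 ≤ Y → 2 / 3 * (Y : ℝ) ^ 3 - (Y : ℝ) ^ 2 / 2 - Y / 6 ≤
      3 / 2 * (Y : ℝ) ^ 2 * (C + 2 / 5 * Y) := by
    intro Y hY
    have hX : (1 : ℕ) ≤ Y ^ 2 := Nat.one_le_pow _ _ (by omega)
    -- lower bound
    have lower : 2 / 3 * (Y : ℝ) ^ 3 - (Y : ℝ) ^ 2 / 2 - Y / 6 ≤
        ∑ N ∈ Icc 1 (Y ^ 2), (∑ d ∈ N.divisors, h d) * (((Y ^ 2 : ℕ) : ℝ) - N) := by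
      have e1 : ∀ Z : ℕ, ∑ m ∈ Icc 1 Z, ((Y : ℝ) ^ 2 - (m : ℝ) ^ 2) =
          Z * (Y : ℝ) ^ 2 - Z * (Z + 1) * (2 * Z + 1) / 6 := by
        intro Z
        induction Z with
        | zero => simp
        | succ Z ih =>
          rw [Finset.sum_Icc_succ_top (by omega), ih]
          push_cast
          ring
      have e2 : 2 / 3 * (Y : ℝ) ^ 3 - (Y : ℝ) ^ 2 / 2 - Y / 6 =
          ∑ m ∈ Icc 1 Y, ((Y : ℝ) ^ 2 - (m : ℝ) ^ 2) := by
        rw [e1]
        ring
      rw [e2]
      calc ∑ m ∈ Icc 1 Y, ((Y : ℝ) ^ 2 - (m : ℝ) ^ 2)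
          ≤ ∑ m ∈ Icc 1 Y, (∑ d ∈ (m ^ 2).divisors, h d) * (((Y ^ 2 : ℕ) : ℝ) - ((m ^ 2 : ℕ) : ℝ)) := by
            apply Finset.sum_le_sum
            intro m hm
            rw [Finset.mem_Icc] at hm
            have h3 : (m : ℝ) ^ 2 ≤ (Y : ℝ) ^ 2 := by
              have : (m : ℝ) ≤ Y := by exact_mod_cast hm.2
              gcongr
            have h4 := hsq m hm.1
            push_cast
            nlinarith
        _ = ∑ N ∈ ((Icc 1 Y).image (fun m : ℕ => m ^ 2) : Finset ℕ),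
              (∑ d ∈ N.divisors, h d) * (((Y ^ 2 : ℕ) : ℝ) - N) := by
            rw [Finset.sum_image]
            intro a _ b _ hab
            exact Nat.pow_left_injective (by norm_num) hab
        _ ≤ _ := by
            apply Finset.sum_le_sum_of_subset_of_nonneg
            · intro N hN
              rw [Finset.mem_image] at hN
              obtain ⟨m, hm, rfl⟩ := hN
              rw [Finset.mem_Icc] at hm ⊢
              exact ⟨Nat.one_le_pow _ _ (by omega), Nat.pow_le_pow_left hm.2 2⟩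
            · intro N hN _
              rw [Finset.mem_Icc] at hN
              apply mul_nonneg (hpos N hN.1)
              have : (N : ℝ) ≤ ((Y ^ 2 : ℕ) : ℝ) := by exact_mod_cast hN.2
              linarith
    refine lower.trans ?_
    rw [swap]
    -- rewrite in terms of `f`
    set X : ℕ := Y ^ 2 with hXdef
    let ψ : ℕ → ℝ := fun d => ((X : ℝ) ^ 2 - X * d + (rho X d : ℝ)) / 2
    have e3 : ∀ d ∈ Icc 1 X, h d * ∑ m ∈ Icc 1 (X / d), ((X : ℝ) - d * m) = f d * ψ d := by
      intro d hd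
      rw [Finset.mem_Icc] at hd
      have h4 := inner_sum X d hd.1
      have hd0 : (d : ℝ) ≠ 0 := by
        have : 0 < d := hd.1
        positivity
      simp only [hf, ψ]
      rw [← h4]
      field_simp
    rw [Finset.sum_congr rfl e3, by_parts]
    have e4 : ψ X = 0 := by
      simp only [ψ, rho, Nat.mod_self]
      push_cast
      ring
    rw [e4, mul_zero, zero_add]
    calc ∑ i ∈ range X, S f i * (ψ i - ψ (i + 1))
        ≤ ∑ i ∈ range X, |S f i| * (3 / 2 * X) := by
          apply Finset.sum_le_sum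
          intro i _
          rcases Nat.eq_zero_or_pos i with rfl | hi
          · rw [S_zero]
            simp
          · refine (le_abs_self _).trans ?_
            rw [abs_mul]
            apply mul_le_mul_of_nonneg_left _ (abs_nonneg _)
            have h6 := rho_diff X i hi
            have h7 : |(rho X i : ℝ) - (rho X (i + 1) : ℝ)| ≤ 2 * (X : ℝ) := by exact_mod_cast h6
            have h8 : ψ i - ψ (i + 1) = (X : ℝ) / 2 + ((rho X i : ℝ) - (rho X (i + 1) : ℝ)) / 2 := by
              simp only [ψ]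
              push_cast
              ring
            rw [h8]
            rw [abs_le] at h7 ⊢
            have h9 : (0 : ℝ) ≤ X := by positivity
            constructor <;> linarith [h7.1, h7.2]
      _ = (3 / 2 * X) * ∑ i ∈ range X, |S f i| := by rw [← Finset.sum_mul, mul_comm]
      _ ≤ (3 / 2 * X) * (C + 2 / 5 * Real.sqrt X) := by
          apply mul_le_mul_of_nonneg_left (hC X) (by positivity)
      _ = 3 / 2 * (Y : ℝ) ^ 2 * (C + 2 / 5 * Y) := by
          rw [hXdef]
          push_cast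
          rw [Real.sqrt_sq (by positivity)]
  obtain ⟨Y, hY⟩ := exists_nat_gt (15 * (3 / 2 * C + 1) + 1)
  have hY1 : (1 : ℝ) < Y := by nlinarith
  have hY0 : 1 ≤ Y := by
    have : (0 : ℝ) < Y := by linarith
    exact_mod_cast this
  have h1 := key Y hY0
  have h2 : (0 : ℝ) < (Y : ℝ) ^ 2 := by positivity
  have h3 : (Y : ℝ) ≤ (Y : ℝ) ^ 2 := by nlinarith
  have h4 : (15 * (3 / 2 * C + 1)) * (Y : ℝ) ^ 2 < Y * (Y : ℝ) ^ 2 := by
    apply mul_lt_mul_of_pos_right _ h2
    linarith
  nlinarith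

end Pool.Agent.U730.MO
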